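import Pool.Agent.H97.BLD.Bd
import Pool.Agent.H8.BD.Defs

/-!
# Project BD: the projections onto the functions which are constant on the residues

`KT M δ T`: the square summable functions on the set of chambers which are constant on the `T`-residues;
`PT M δ T`: the orthogonal projection onto `KT M δ T`. It is zero for `T` not spherical and the mean over the residues for
`T` spherical.
-/

set_option autoImplicit false

open Finset

namespace Pool.Agent.H22.BD

open Pool.Agent.H4.FC Pool.Agent.H78.RC Pool.Agent.H97.BLD Pool.Agent.H8.BD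

variable {S : Type} {Δ : Type}

/-- square summable functions on the chambers -/
abbrev LD (Δ : Type) : Type := lp (fun _ : Δ => ℂ) 2

/-- the square summable functions which are constant on the residues of type `T` -/
def KT (M : CoxeterMatrix S) (δ : Δ → Δ → M.Group) (T : Finset S) : Submodule ℂ (LD Δ) where
  carrier := {f | ∀ c d, δ c d ∈ par M T → f c = f d}
  add_mem' := by
    intro f g hf hg c d h
    rw [lp.coeFn_add, Pi.add_apply, Pi.add_apply, hf c d h, hg c d h]
  zero_mem' := by
    intro c d _
    rw [lp.coeFn_zero, Pi.zero_apply, Pi.zero_apply]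
  smul_mem' := by
    intro a f hf c d h
    rw [lp.coeFn_smul, Pi.smul_apply, Pi.smul_apply, hf c d h]

theorem mem_KT {M : CoxeterMatrix S} {δ : Δ → Δ → M.Group} {T : Finset S} {f : LD Δ} :
    f ∈ KT M δ T ↔ ∀ c d, δ c d ∈ par M T → f c = f d := Iff.rfl

theorem continuous_coord (c : Δ) : Continuous fun f : LD Δ => f c := by
  have h1 : ∀ f g : LD Δ, ‖f c - g c‖ ≤ ‖f - g‖ := fun f g => by
    have h2 := lp.norm_apply_le_norm (by norm_num : (2 : ENNReal) ≠ 0) (f - g) c
    rwa [lp.coeFn_sub, Pi.sub_apply] at h2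
  refine (LipschitzWith.of_dist_le_mul (K := 1) fun f g => ?_).continuous
  rw [dist_eq_norm, dist_eq_norm, NNReal.coe_one, one_mul]
  exact h1 f g

theorem isClosed_KT (M : CoxeterMatrix S) (δ : Δ → Δ → M.Group) (T : Finset S) :
    IsClosed (KT M δ T : Set (LD Δ)) := by
  have h1 : (KT M δ T : Set (LD Δ)) = ⋂ (c : Δ) (d : Δ) (_ : δ c d ∈ par M T), {f | f c = f d} := by
    ext f
    simp [KT]
  rw [h1]
  exact isClosed_iInter fun c => isClosed_iInter fun d => isClosed_iInter fun _ =>
    isClosed_eq (continuous_coord c) (continuous_coord d)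

instance KT_complete (M : CoxeterMatrix S) (δ : Δ → Δ → M.Group) (T : Finset S) :
    CompleteSpace (KT M δ T) := (isClosed_KT M δ T).completeSpace_coe

/-- the orthogonal projection onto the functions which are constant on the residues of type `T` -/
noncomputable def PT (M : CoxeterMatrix S) (δ : Δ → Δ → M.Group) (T : Finset S) :
    LD Δ →L[ℂ] LD Δ := (KT M δ T).starProjection

section basic

variable {M : CoxeterMatrix S} {δ : Δ → Δ → M.Group}

theorem PT_mem (T : Finset S) (f : LD Δ) : PT M δ T f ∈ KT M δ T :=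
  Submodule.starProjection_apply_mem _ _

theorem PT_const {T : Finset S} (f : LD Δ) {c d : Δ} (h : δ c d ∈ par M T) :
    PT M δ T f c = PT M δ T f d := PT_mem T f c d h

theorem PT_eq_self_iff {T : Finset S} {f : LD Δ} : PT M δ T f = f ↔ f ∈ KT M δ T :=
  Submodule.starProjection_eq_self_iff

theorem norm_PT (T : Finset S) : ‖PT M δ T‖ ≤ 1 := Submodule.starProjection_norm_le _

theorem PT_inner (T : Finset S) (f : LD Δ) {g : LD Δ} (hg : g ∈ KT M δ T) :
    inner ℂ (f - PT M δ T f) g = 0 := Submodule.starProjection_inner_eq_zero _ _ hg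

theorem KT_mono {T U : Finset S} (h : T ⊆ U) : KT M δ U ≤ KT M δ T := fun f hf c d hcd =>
  hf c d (Subgroup.closure_mono (fun w hw => by
    obtain ⟨v, hv, rfl⟩ := hw
    exact ⟨v, h hv, rfl⟩) hcd)

theorem PT_nest {T U : Finset S} (h : T ⊆ U) : PT M δ T * PT M δ U = PT M δ U := by
  refine ContinuousLinearMap.ext fun f => ?_
  exact PT_eq_self_iff.mpr (KT_mono h (PT_mem U f))

theorem PT_nest' {T U : Finset S} (h : T ⊆ U) : PT M δ U * PT M δ T = PT M δ U := by
  refine ContinuousLinearMap.ext fun f => ?_
  show PT M δ U (PT M δ T f) = PT M δ U f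
  have h1 : PT M δ U f = (KT M δ U).starProjection f := rfl
  rw [h1]
  refine Eq.symm (Submodule.eq_starProjection_of_mem_of_inner_eq_zero (PT_mem U _) fun w hw => ?_)
  have h2 : f - PT M δ U (PT M δ T f) =
      (f - PT M δ T f) + (PT M δ T f - PT M δ U (PT M δ T f)) := by abel
  rw [h2, inner_add_left, PT_inner T f (KT_mono h hw), PT_inner U _ hw, add_zero]

end basic

section building

variable {M : CoxeterMatrix S} {δ : Δ → Δ → M.Group}

theorem PT_empty (h : IsBuilding M δ) : PT M δ ∅ = 1 := by
  refine ContinuousLinearMap.ext fun f => ?_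
  refine PT_eq_self_iff.mpr fun c d hcd => ?_
  have h1 : δ c d = 1 := by
    have h2 : par M (∅ : Finset S) = ⊥ := by
      unfold par
      rw [Subgroup.closure_eq_bot_iff]
      rintro w ⟨v, hv, _⟩
      exact absurd hv (Finset.notMem_empty v)
    rw [h2] at hcd
    exact Subgroup.mem_bot.mp hcd
  rw [(h.eq_one c d).1 h1]

/-- constant on the panels of the types in `T`: constant on the residues of type `T` -/
theorem mem_KT_of_panels (h : IsBuilding M δ) {T : Finset S} {f : LD Δ}
    (hf : ∀ v ∈ T, ∀ c d, δ c d = M.simple v → f c = f d) : f ∈ KT M δ T := by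
  intro c d hcd
  obtain ⟨w, hw⟩ : ∃ w, w = δ c d := ⟨_, rfl⟩
  rw [← hw] at hcd
  unfold par at hcd
  induction hcd using Subgroup.closure_induction_right generalizing d with
  | one => rw [(h.eq_one c d).1 hw.symm]
  | mul_right x hx y hy ih =>
    obtain ⟨v, hv, rfl⟩ := hy
    obtain ⟨b, hb1, hb2⟩ := h.exists_stepR v c d
    have h1 : x = δ c b := by
      rw [hb2, ← hw, mul_assoc]
      have h2 : M.simple v * M.simple v = 1 := M.toCoxeterSystem.simple_mul_simple_self v
      rw [h2, mul_one]
    rw [ih b h1, hf v hv d b hb1]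
  | mul_inv_cancel x hx y hy ih =>
    obtain ⟨v, hv, rfl⟩ := hy
    have h3 : (M.simple v)⁻¹ = M.simple v := M.toCoxeterSystem.inv_simple v
    obtain ⟨b, hb1, hb2⟩ := h.exists_stepR v c d
    have h1 : x = δ c b := by
      rw [hb2, ← hw, h3, mul_assoc]
      have h2 : M.simple v * M.simple v = 1 := M.toCoxeterSystem.simple_mul_simple_self v
      rw [h2, mul_one]
    rw [ih b h1, hf v hv d b hb1]

theorem PT_fix (h : IsBuilding M δ) {T : Finset S} {f : LD Δ}
    (hf : ∀ v ∈ T, PT M δ {v} f = f) : PT M δ T f = f := by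
  refine PT_eq_self_iff.mpr (mem_KT_of_panels h fun v hv c d hcd => ?_)
  have h1 := PT_eq_self_iff.mp (hf v hv)
  refine h1 c d ?_
  rw [hcd]
  exact Subgroup.subset_closure ⟨v, Finset.mem_singleton_self v, rfl⟩

/-- every element of the Coxeter group is a distance from `c` -/
theorem exists_dist (h : IsBuilding M δ) (c : Δ) (w : M.Group) : ∃ d, δ c d = w := by
  obtain ⟨ω, hω⟩ := M.toCoxeterSystem.wordProd_surjective w
  subst hω
  induction ω using List.reverseRecOn with
  | nil => exact ⟨c, by simpa using h.self c⟩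
  | append_singleton ω s ih =>
    obtain ⟨b, hb⟩ := ih
    obtain ⟨d, _, hd⟩ := h.exists_stepR s c b
    refine ⟨d, ?_⟩
    rw [hd, hb, CoxeterSystem.wordProd_append]
    simp only [CoxeterSystem.wordProd_singleton]
    rfl

theorem residue_infinite (h : IsBuilding M δ) {T : Finset S} (hT : ¬ Sph M T) (c : Δ) :
    (residue M δ T c).Infinite := by
  intro hfin
  refine hT ?_
  have h1 : (par M T : Set M.Group) ⊆ (δ c) '' (residue M δ T c) := by
    intro w hw
    obtain ⟨d, hd⟩ := exists_dist h c w
    exact ⟨d, by rw [residue, Set.mem_ofPred_eq, hd]; exact hw, hd⟩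
  exact ((hfin.image _).subset h1).to_subtype

theorem PT_zero (h : IsBuilding M δ) {T : Finset S} (hT : ¬ Sph M T) : PT M δ T = 0 := by
  refine ContinuousLinearMap.ext fun f => ?_
  set g := PT M δ T f with hg
  have hgK : g ∈ KT M δ T := PT_mem T f
  refine lp.ext (funext fun c => ?_)
  show g c = (0 : LD Δ) c
  rw [lp.coeFn_zero, Pi.zero_apply]
  by_contra hne
  have h1 : Summable fun d => ‖g d‖ ^ 2 := by
    have h2 := (lp.memℓp g).summable (by norm_num)
    simpa using h2
  have h3 := h1.tendsto_cofinite_zero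
  have h4 : ∀ᶠ d in Filter.cofinite, ‖g d‖ ^ 2 < ‖g c‖ ^ 2 :=
    h3.eventually_lt_const (by positivity)
  rw [Filter.eventually_cofinite] at h4
  refine residue_infinite h hT c (h4.subset fun d hd => ?_)
  have h5 : g c = g d := hgK c d hd
  simp [h5]

/-- the chambers at a given distance are finitely many -/
theorem finite_dist (h : IsBuilding M δ) (hq : ∀ s c, {d | δ c d = M.simple s}.Finite) (c : Δ)
    (w : M.Group) : {d | δ c d = w}.Finite := by
  obtain ⟨ω, hω⟩ := M.toCoxeterSystem.wordProd_surjective w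
  subst hω
  induction ω using List.reverseRecOn with
  | nil =>
    refine (Set.finite_singleton c).subset fun d hd => ?_
    have h1 : δ c d = 1 := by simpa using hd
    exact ((h.eq_one c d).1 h1).symm
  | append_singleton ω s ih =>
    refine (ih.biUnion fun b _ => hq s b).subset fun d hd => ?_
    obtain ⟨b, hb1, hb2⟩ := h.exists_stepR s c d
    have h1 : δ c b = M.toCoxeterSystem.wordProd ω := by
      have h2 : δ c d = M.toCoxeterSystem.wordProd ω * M.simple s := by
        have h3 : δ c d = M.toCoxeterSystem.wordProd (ω ++ [s]) := hd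
        rw [h3, CoxeterSystem.wordProd_append]
        simp only [CoxeterSystem.wordProd_singleton]
        rfl
      have h4 : M.simple s * M.simple s = 1 := M.toCoxeterSystem.simple_mul_simple_self s
      rw [hb2, h2, mul_assoc, h4, mul_one]
    exact Set.mem_biUnion (show b ∈ {d | δ c d = M.toCoxeterSystem.wordProd ω} from h1)
      (h.symm_simple hb1)

theorem residue_finite (h : IsBuilding M δ) (hq : ∀ s c, {d | δ c d = M.simple s}.Finite)
    {T : Finset S} (hT : Sph M T) (c : Δ) : (residue M δ T c).Finite := by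
  have hT' : (par M T : Set M.Group).Finite := by
    have : Finite (par M T) := hT
    exact Set.toFinite _
  refine (hT'.biUnion fun w _ => finite_dist h hq c w).subset fun d hd => ?_
  exact Set.mem_biUnion (show δ c d ∈ (par M T : Set M.Group) from hd) rfl

theorem mem_residue_self (h : IsBuilding M δ) (T : Finset S) (c : Δ) : c ∈ residue M δ T c := by
  rw [residue, Set.mem_ofPred_eq, h.self]
  exact one_mem _

/-- **For `T` spherical, `PT` is the mean over the residues of type `T`.** -/
theorem PT_avg (h : IsBuilding M δ) {T : Finset S} (c : Δ) (hfin : (residue M δ T c).Finite)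
    (f : LD Δ) : PT M δ T f c = (hfin.toFinset.card : ℂ)⁻¹ * ∑ d ∈ hfin.toFinset, f d := by
  classical
  set R := hfin.toFinset with hR
  have hmem : ∀ d, d ∈ R ↔ δ c d ∈ par M T := fun d => by
    rw [hR, Set.Finite.mem_toFinset, residue, Set.mem_ofPred_eq]
  let χ : LD Δ := ∑ d ∈ R, lp.single 2 d (1 : ℂ)
  have hχ : ∀ d, χ d = if d ∈ R then 1 else 0 := by
    intro d
    have h1 : χ d = ∑ e ∈ R, (lp.single 2 e (1 : ℂ) : LD Δ) d := by
      show (∑ e ∈ R, lp.single 2 e (1 : ℂ) : LD Δ) d = _
      rw [lp.coeFn_sum, Finset.sum_apply]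
    rw [h1]
    by_cases hd : d ∈ R
    · rw [if_pos hd, Finset.sum_eq_single d]
      · simp
      · intro e _ hne
        rw [lp.single_apply_ne 2 e _ (Ne.symm hne)]
      · intro h2
        exact absurd hd h2
    · rw [if_neg hd]
      refine Finset.sum_eq_zero fun e he => ?_
      rw [lp.single_apply_ne 2 e _ (fun h2 => hd (by rw [h2]; exact he))]
  have hχK : χ ∈ KT M δ T := by
    intro a b hab
    have h1 : a ∈ R ↔ b ∈ R := by
      rw [hmem, hmem]
      constructor
      · intro h2
        exact h.par_trans h2 hab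
      · intro h2
        refine h.par_trans h2 ?_
        rw [h.symm a b]
        exact inv_mem hab
    rw [hχ, hχ]
    by_cases h2 : a ∈ R
    · rw [if_pos h2, if_pos (h1.mp h2)]
    · rw [if_neg h2, if_neg fun h3 => h2 (h1.mpr h3)]
  have hinn : inner ℂ χ (f - PT M δ T f) = ∑ d ∈ R, (f d - PT M δ T f d) := by
    show inner ℂ (∑ d ∈ R, lp.single 2 d (1 : ℂ)) (f - PT M δ T f) = _
    rw [sum_inner]
    refine Finset.sum_congr rfl fun d _ => ?_
    rw [lp.inner_single_left, lp.coeFn_sub, Pi.sub_apply]
    simp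
  have h0 : inner ℂ χ (f - PT M δ T f) = 0 := by
    rw [← inner_conj_symm, PT_inner T f hχK, map_zero]
  rw [hinn, Finset.sum_sub_distrib, sub_eq_zero] at h0
  have h1 : ∑ d ∈ R, PT M δ T f d = (R.card : ℂ) * PT M δ T f c := by
    rw [Finset.sum_congr rfl fun d hd => (PT_const f ((hmem d).mp hd)).symm, Finset.sum_const,
      nsmul_eq_mul]
  have h2 : (R.card : ℂ) ≠ 0 := by
    have h3 : c ∈ R := by
      rw [hR, Set.Finite.mem_toFinset]
      exact mem_residue_self h T c
    exact Nat.cast_ne_zero.mpr (Finset.card_ne_zero_of_mem h3)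
  rw [h0, h1, ← mul_assoc, inv_mul_cancel₀ h2, one_mul]

/-- all of `Pairs` except the pair estimate -/
theorem pairs_of_pair [DecidableEq S] (h : IsBuilding M δ) {ε : ℝ}
    (hp : ∀ u v, u ≠ v → ‖PT M δ {u} * PT M δ {v} - PT M δ {u, v}‖ ≤ ε) :
    Pairs (fun T => Sph M T) (PT M δ) ε where
  one := PT_empty h
  norm := norm_PT
  nest := fun _ _ hTU => PT_nest hTU
  nest' := fun _ _ hTU => PT_nest' hTU
  fix := fun _ _ hx => PT_fix h hx
  zero := fun _ hT => PT_zero h hT
  pair := hp

end building

end Pool.Agent.H22.BD
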